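import Pool.Agent.N207.HG.Stm

/-!
# HG/IRR: the conjugates of a reflection under `T` act irreducibly (subtask 1198)
-/

set_option autoImplicit false

open Matrix

namespace Pool.Agent.N34.HG.Irr

open Pool.Agent.Y985.OR (Mat bl)
open Pool.Agent.N207.HG (S_IRR)

section

variable {n : ℕ} {J : Mat n} {s : ℂ} {U : (Mat n)ˣ} {x : Fin n → ℂ} {c : ℂ}

/-- the form as a bilinear map -/
noncomputable def bb (J : Mat n) : (Fin n → ℂ) →ₗ[ℂ] (Fin n → ℂ) →ₗ[ℂ] ℂ := Matrix.toLinearMap₂' ℂ J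

lemma bb_apply (u v : Fin n → ℂ) : bb J u v = bl J u v := Matrix.toLinearMap₂'_apply' J u v

/-- the translates of `x` -/
def vv (U : (Mat n)ˣ) (x : Fin n → ℂ) (k : ℤ) : Fin n → ℂ := ((U ^ k : (Mat n)ˣ) : Mat n) *ᵥ x

lemma vv_zero : vv U x 0 = x := by
  unfold vv
  rw [_root_.zpow_zero, Units.val_one, one_mulVec]

lemma mul_vv (j k : ℤ) : ((U ^ j : (Mat n)ˣ) : Mat n) *ᵥ vv U x k = vv U x (j + k) := by
  unfold vv
  rw [mulVec_mulVec, ← Units.val_mul, ← _root_.zpow_add]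

lemma inv_mulVec_cancel (j : ℤ) (y : Fin n → ℂ) :
    ((U ^ j : (Mat n)ˣ) : Mat n) *ᵥ (((U ^ (-j) : (Mat n)ˣ) : Mat n) *ᵥ y) = y := by
  rw [mulVec_mulVec, ← Units.val_mul, ← _root_.zpow_add, add_neg_cancel, _root_.zpow_zero, Units.val_one,
    one_mulVec]

lemma iso_of {M : Mat n} (h : Mᵀ * J * M = J) (u w : Fin n → ℂ) :
    bb J (M *ᵥ u) (M *ᵥ w) = bb J u w := by
  rw [bb_apply, bb_apply]
  unfold bl
  rw [mulVec_mulVec, dotProduct_comm, dotProduct_mulVec, ← mulVec_transpose, mulVec_mulVec,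
    ← Matrix.mul_assoc, h, dotProduct_comm]

/-- `U ^ k` is an isometry -/
lemma iso_zpow (hU : (U : Mat n)ᵀ * J * (U : Mat n) = J) (k : ℤ) (u w : Fin n → ℂ) :
    bb J (((U ^ k : (Mat n)ˣ) : Mat n) *ᵥ u) (((U ^ k : (Mat n)ˣ) : Mat n) *ᵥ w) = bb J u w := by
  have h1 : ∀ u w, bb J ((U : Mat n) *ᵥ u) ((U : Mat n) *ᵥ w) = bb J u w := iso_of hU
  have h2 : ∀ u w, bb J (((U⁻¹ : (Mat n)ˣ) : Mat n) *ᵥ u) (((U⁻¹ : (Mat n)ˣ) : Mat n) *ᵥ w) =
      bb J u w := by
    intro u w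
    rw [← h1, mulVec_mulVec, mulVec_mulVec, Units.mul_inv, one_mulVec, one_mulVec]
  induction k with
  | zero => rw [_root_.zpow_zero, Units.val_one, one_mulVec, one_mulVec]
  | succ k ih =>
    rw [add_comm, _root_.zpow_add, _root_.zpow_one, Units.val_mul, ← mulVec_mulVec, ← mulVec_mulVec, h1]
    exact ih
  | pred k ih =>
    rw [sub_eq_add_neg, add_comm, _root_.zpow_add, _root_.zpow_neg_one, Units.val_mul, ← mulVec_mulVec,
      ← mulVec_mulVec, h2]
    exact ih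

/-- invariance under all the conjugates of `g` -/
def Inv (J : Mat n) (U : (Mat n)ˣ) (x : Fin n → ℂ) (c : ℂ) (W : Submodule ℂ (Fin n → ℂ)) : Prop :=
  ∀ (k : ℤ), ∀ y ∈ W, y + (c * bb J y (vv U x k)) • vv U x k ∈ W

lemma inv_or {W : Submodule ℂ (Fin n → ℂ)} (hc : c ≠ 0) (hW : Inv J U x c W) (k : ℤ) :
    vv U x k ∈ W ∨ ∀ y ∈ W, bb J y (vv U x k) = 0 := by
  by_contra hcon
  push Not at hcon
  obtain ⟨h1, y, hy, h2⟩ := hcon
  apply h1
  have h3 := W.sub_mem (hW k y hy) hy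
  rw [add_sub_cancel_left] at h3
  exact (W.smul_mem_iff (mul_ne_zero hc h2)).1 h3

lemma inv_comap (hU : (U : Mat n)ᵀ * J * (U : Mat n) = J) {W : Submodule ℂ (Fin n → ℂ)}
    (hW : Inv J U x c W) (j : ℤ) :
    Inv J U x c (W.comap (Matrix.mulVecLin ((U ^ j : (Mat n)ˣ) : Mat n))) := by
  intro k y hy
  rw [Submodule.mem_comap, mulVecLin_apply] at hy ⊢
  rw [mulVec_add, mulVec_smul, mul_vv]
  have h1 := hW (j + k) _ hy
  rw [← mul_vv, iso_zpow hU, mul_vv] at h1
  exact h1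

/-- the equivalence of indices -/
def Rel (J : Mat n) (U : (Mat n)ˣ) (x : Fin n → ℂ) (c : ℂ) (k l : ℤ) : Prop :=
  ∀ W : Submodule ℂ (Fin n → ℂ), Inv J U x c W → (vv U x k ∈ W ↔ vv U x l ∈ W)

lemma rel_add (hU : (U : Mat n)ᵀ * J * (U : Mat n) = J) {k l : ℤ} (h : Rel J U x c k l) (j : ℤ) :
    Rel J U x c (j + k) (j + l) := by
  intro W hW
  have h1 := h _ (inv_comap hU hW j)
  rw [Submodule.mem_comap, mulVecLin_apply, Submodule.mem_comap, mulVecLin_apply, mul_vv,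
    mul_vv] at h1
  exact h1

/-- the indices equivalent to `0` -/
def HH (hU : (U : Mat n)ᵀ * J * (U : Mat n) = J) (x : Fin n → ℂ) (c : ℂ) : AddSubgroup ℤ where
  carrier := {k | Rel J U x c k 0}
  zero_mem' := fun _ _ => Iff.rfl
  add_mem' := by
    intro k l hk hl W hW
    have h1 := rel_add hU hl k W hW
    rw [add_zero] at h1
    exact h1.trans (hk W hW)
  neg_mem' := by
    intro k hk W hW
    have h1 := rel_add hU hk (-k) W hW
    rw [neg_add_cancel, add_zero] at h1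
    exact h1.symm

lemma rel_iff (hU : (U : Mat n)ᵀ * J * (U : Mat n) = J) (k l : ℤ) :
    Rel J U x c k l ↔ k - l ∈ HH hU x c := by
  constructor
  · intro h
    have h1 := rel_add hU h (-l)
    rw [neg_add_cancel, neg_add_eq_sub] at h1
    exact h1
  · intro h
    have h1 := rel_add hU (h : Rel J U x c (k - l) 0) l
    rw [add_zero, add_sub_cancel] at h1
    exact h1

/-- inequivalent indices give orthogonal vectors -/
lemma ortho (hs : ∀ u w, bb J u w = s * bb J w u) (hc : c ≠ 0) {k l : ℤ}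
    (h : ¬ Rel J U x c k l) : bb J (vv U x k) (vv U x l) = 0 := by
  unfold Rel at h
  push Not at h
  obtain ⟨W, hW, h1⟩ := h
  rcases h1 with ⟨h1, h2⟩ | ⟨h1, h2⟩
  · rcases inv_or hc hW l with h3 | h3
    · exact absurd h3 h2
    · exact h3 _ h1
  · rcases inv_or hc hW k with h3 | h3
    · exact absurd h3 h1
    · rw [hs, h3 _ h2, mul_zero]

/-- a vector orthogonal to all translates is zero -/
lemma perp_zero (hU : (U : Mat n)ᵀ * J * (U : Mat n) = J) (hs : ∀ u w, bb J u w = s * bb J w u)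
    (he : ∀ (e : Fin n → ℂ) (m : ℂ), e ≠ 0 → (U : Mat n) *ᵥ e = m • e → bb J x e ≠ 0)
    {y : Fin n → ℂ} (hy : ∀ k, bb J y (vv U x k) = 0) : y = 0 := by
  by_contra hy0
  let K : Submodule ℂ (Fin n → ℂ) :=
    { carrier := {y | ∀ k, bb J y (vv U x k) = 0}
      zero_mem' := fun k => by rw [map_zero, LinearMap.zero_apply]
      add_mem' := fun {a b} ha hb k => by rw [map_add, LinearMap.add_apply, ha k, hb k, add_zero]
      smul_mem' := fun r a ha k => by
        rw [map_smul, LinearMap.smul_apply, ha k, smul_zero] }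
  have hK : ∀ z ∈ K, (Matrix.mulVecLin (U : Mat n)) z ∈ K := by
    intro z hz k
    rw [mulVecLin_apply]
    have h1 := iso_zpow hU 1 z (vv U x (k - 1))
    rw [mul_vv, _root_.zpow_one] at h1
    have h2 : (1 : ℤ) + (k - 1) = k := by ring
    rw [h2] at h1
    rw [h1]
    exact hz _
  have hne : Nontrivial K := ⟨⟨⟨y, hy⟩, 0, fun h => hy0 (congrArg Subtype.val h)⟩⟩
  obtain ⟨m, hm⟩ := Module.End.exists_eigenvalue ((Matrix.mulVecLin (U : Mat n)).restrict hK)
  obtain ⟨e, he1⟩ := hm.exists_hasEigenvector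
  have h1 := he1.apply_eq_smul
  have h2 : (U : Mat n) *ᵥ (e : Fin n → ℂ) = m • (e : Fin n → ℂ) := congrArg Subtype.val h1
  have h3 : (e : Fin n → ℂ) ≠ 0 := fun h => he1.2 (Subtype.ext h)
  apply he _ m h3 h2
  have h4 := e.2 0
  rw [vv_zero] at h4
  have h5 := hs x e
  rw [h4, mul_zero] at h5
  exact h5

/-- a subspace which contains all translates is everything -/
lemma span_top (hJ : J.det ≠ 0)
    (hp : ∀ y : Fin n → ℂ, (∀ k, bb J y (vv U x k) = 0) → y = 0)
    {W : Submodule ℂ (Fin n → ℂ)} (hW : ∀ k, vv U x k ∈ W) : W = ⊤ := by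
  by_contra hne
  obtain ⟨f, hf0, hf⟩ := Submodule.exists_le_ker_of_lt_top W (lt_top_iff_ne_top.2 hne)
  -- represent `f` by the form
  have h1 : ∃ w : Fin n → ℂ, ∀ z, f z = w ⬝ᵥ z := by
    refine ⟨fun i => f (Pi.single i 1), fun z => ?_⟩
    conv_lhs => rw [pi_eq_sum_univ' z]
    rw [map_sum]
    unfold dotProduct
    apply Finset.sum_congr rfl
    intro i _
    rw [map_smul, smul_eq_mul, mul_comm]
  obtain ⟨w, hw⟩ := h1
  have h2 : ∀ z, bb J (w ᵥ* J⁻¹) z = f z := by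
    intro z
    rw [bb_apply, hw]
    unfold bl
    rw [dotProduct_mulVec, vecMul_vecMul, Matrix.nonsing_inv_mul _ (isUnit_iff_ne_zero.2 hJ),
      vecMul_one]
  have h3 : w ᵥ* J⁻¹ = 0 := hp _ fun k => by
    rw [h2]
    exact hf (hW k)
  apply hf0
  refine LinearMap.ext fun z => ?_
  rw [← h2, h3, map_zero]

/-- the twisting map -/
lemma exists_D {ζ : ℂ} (hζ : ζ ≠ 0) (hJp : ∀ y : Fin n → ℂ, (∀ k, bb J y (vv U x k) = 0) → y = 0)
    (htop : ∀ W : Submodule ℂ (Fin n → ℂ), (∀ k, vv U x k ∈ W) → W = ⊤)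
    (hort : ∀ k l : ℤ, ζ ^ k ≠ ζ ^ l → bb J (vv U x k) (vv U x l) = 0) :
    ∃ D : (Fin n → ℂ) →ₗ[ℂ] (Fin n → ℂ), (∀ k, D (vv U x k) = ζ ^ k • vv U x k) ∧
      ∀ z, D z = 0 → z = 0 := by
  let Φ : (ℤ →₀ ℂ) →ₗ[ℂ] (Fin n → ℂ) := Finsupp.linearCombination ℂ (vv U x)
  let Ψ : (ℤ →₀ ℂ) →ₗ[ℂ] (Fin n → ℂ) := Finsupp.linearCombination ℂ (fun k => ζ ^ k • vv U x k)
  have hΦ : ∀ k, Φ (Finsupp.single k 1) = vv U x k := fun k => by
    rw [Finsupp.linearCombination_single, one_smul]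
  have hΨ : ∀ k, Ψ (Finsupp.single k 1) = ζ ^ k • vv U x k := fun k => by
    rw [Finsupp.linearCombination_single, one_smul]
  have hpair : ∀ (a : ℤ →₀ ℂ) (l : ℤ), bb J (Ψ a) (vv U x l) = ζ ^ l * bb J (Φ a) (vv U x l) := by
    intro a l
    have h1 : (bb J).flip (vv U x l) ∘ₗ Ψ = ζ ^ l • ((bb J).flip (vv U x l) ∘ₗ Φ) := by
      apply Finsupp.lhom_ext'
      intro k
      apply LinearMap.ext_ring
      simp only [LinearMap.comp_apply, LinearMap.smul_apply, Finsupp.lsingle_apply, hΦ, hΨ,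
        LinearMap.flip_apply, map_smul, smul_eq_mul]
      by_cases h : ζ ^ k = ζ ^ l
      · rw [h]
      · rw [hort k l h, mul_zero, mul_zero]
    exact LinearMap.congr_fun h1 a
  have hsurj : Function.Surjective Φ := by
    rw [← LinearMap.range_eq_top]
    exact htop _ fun k => ⟨Finsupp.single k 1, hΦ k⟩
  obtain ⟨r, hr⟩ := Φ.exists_rightInverse_of_surjective (LinearMap.range_eq_top.2 hsurj)
  have hr' : ∀ z, Φ (r z) = z := fun z => LinearMap.congr_fun hr z
  have hker : ∀ a, Φ a = 0 → Ψ a = 0 := by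
    intro a ha
    apply hJp
    intro l
    rw [hpair, ha, map_zero, LinearMap.zero_apply, mul_zero]
  have hker' : ∀ a, Ψ a = 0 → Φ a = 0 := by
    intro a ha
    apply hJp
    intro l
    have h1 := hpair a l
    rw [ha, map_zero, LinearMap.zero_apply] at h1
    exact (mul_eq_zero.1 h1.symm).resolve_left (zpow_ne_zero l hζ)
  refine ⟨Ψ ∘ₗ r, fun k => ?_, fun z hz => ?_⟩
  · rw [LinearMap.comp_apply]
    have h1 : Ψ (r (vv U x k) - Finsupp.single k 1) = 0 := by
      apply hker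
      rw [map_sub, hr', hΦ, sub_self]
    rw [map_sub, hΨ, sub_eq_zero] at h1
    exact h1
  · have h1 := hker' _ (hz : Ψ (r z) = 0)
    rw [hr'] at h1
    exact h1

/-- the conclusion from a period `d ≥ 2` of the classes -/
lemma no_period
    (hJp : ∀ y : Fin n → ℂ, (∀ k, bb J y (vv U x k) = 0) → y = 0)
    (htop : ∀ W : Submodule ℂ (Fin n → ℂ), (∀ k, vv U x k ∈ W) → W = ⊤) {g : Mat n}
    (hg : ∀ y, g *ᵥ y = y + (c * bb J y x) • x) {d : ℕ} (hd : 2 ≤ d)
    (hort : ∀ k l : ℤ, ¬ (d : ℤ) ∣ k - l → bb J (vv U x k) (vv U x l) = 0)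
    (h : (∃ (m : ℂ) (e : Fin n → ℂ), e ≠ 0 ∧ (U : Mat n) *ᵥ e = m • e ∧ ∀ e' : Fin n → ℂ,
      (U : Mat n) *ᵥ e' = (m * Complex.exp (-(2 * Real.pi * Complex.I / d))) • e' → e' = 0) ∨
    (∃ (m : ℂ) (e : Fin n → ℂ), e ≠ 0 ∧ (g * (U : Mat n)) *ᵥ e = m • e ∧ ∀ e' : Fin n → ℂ,
      (g * (U : Mat n)) *ᵥ e' = (m * Complex.exp (-(2 * Real.pi * Complex.I / d))) • e' → e' = 0)) :
    False := by
  set ζ : ℂ := Complex.exp (2 * Real.pi * Complex.I / d) with hζd
  have hζ0 : ζ ≠ 0 := Complex.exp_ne_zero _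
  have hζinv : Complex.exp (-(2 * Real.pi * Complex.I / d)) = ζ⁻¹ := Complex.exp_neg _
  have hd0 : (d : ℂ) ≠ 0 := by exact_mod_cast (by omega : d ≠ 0)
  have hζpow : ζ ^ d = 1 := by
    rw [hζd, ← Complex.exp_nat_mul, mul_div_cancel₀ _ hd0, Complex.exp_two_pi_mul_I]
  have hζdvd : ∀ k : ℤ, (d : ℤ) ∣ k → ζ ^ k = 1 := by
    rintro k ⟨j, rfl⟩
    rw [_root_.zpow_mul, zpow_natCast, hζpow, _root_.one_zpow]
  have hζeq : ∀ k l : ℤ, (d : ℤ) ∣ k - l → ζ ^ k = ζ ^ l := by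
    intro k l hkl
    have h1 := hζdvd _ hkl
    rw [zpow_sub₀ hζ0, div_eq_one_iff_eq (zpow_ne_zero l hζ0)] at h1
    exact h1
  obtain ⟨D, hD, hDinj⟩ := exists_D (J := J) (U := U) (x := x) hζ0 hJp htop
    (fun k l hkl => hort k l fun h => hkl (hζeq k l h))
  have hDT : ∀ z, D ((U : Mat n) *ᵥ z) = ζ • ((U : Mat n) *ᵥ D z) := by
    have h1 : (⊤ : Submodule ℂ (Fin n → ℂ)) ≤ LinearMap.eqLocus (D ∘ₗ Matrix.mulVecLin (U : Mat n))
        (ζ • (Matrix.mulVecLin (U : Mat n) ∘ₗ D)) := by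
      rw [← htop (LinearMap.eqLocus (D ∘ₗ Matrix.mulVecLin (U : Mat n))
        (ζ • (Matrix.mulVecLin (U : Mat n) ∘ₗ D)))]
      intro k
      rw [LinearMap.mem_eqLocus, LinearMap.comp_apply, LinearMap.smul_apply, LinearMap.comp_apply,
        hD, map_smul, mulVecLin_apply]
      have h2 := mul_vv (U := U) (x := x) 1 k
      rw [_root_.zpow_one] at h2
      rw [h2, hD, smul_smul, zpow_add₀ hζ0, zpow_one]
    intro z
    have h2 := h1 (Submodule.mem_top : z ∈ ⊤)
    rw [LinearMap.mem_eqLocus, LinearMap.comp_apply, LinearMap.smul_apply, LinearMap.comp_apply,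
      mulVecLin_apply, mulVecLin_apply] at h2
    exact h2
  have hDg : ∀ z, D (g *ᵥ z) = g *ᵥ D z := by
    have h1 : (⊤ : Submodule ℂ (Fin n → ℂ)) ≤ LinearMap.eqLocus (D ∘ₗ Matrix.mulVecLin g)
        (Matrix.mulVecLin g ∘ₗ D) := by
      rw [← htop (LinearMap.eqLocus (D ∘ₗ Matrix.mulVecLin g) (Matrix.mulVecLin g ∘ₗ D))]
      intro k
      rw [LinearMap.mem_eqLocus, LinearMap.comp_apply, LinearMap.comp_apply, mulVecLin_apply,
        mulVecLin_apply, hD, mulVec_smul, hg, map_add, map_smul, hD]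
      have hDx : D x = x := by
        have := hD 0
        rw [vv_zero, _root_.zpow_zero, one_smul] at this
        exact this
      rw [hDx, smul_add, smul_smul]
      congr 1
      by_cases hk : (d : ℤ) ∣ k
      · rw [hζdvd k hk, one_mul]
      · have h3 := hort k 0 (by rw [sub_zero]; exact hk)
        rw [vv_zero] at h3
        rw [h3, mul_zero, mul_zero]
    intro z
    have h2 := h1 (Submodule.mem_top : z ∈ ⊤)
    rw [LinearMap.mem_eqLocus, LinearMap.comp_apply, LinearMap.comp_apply, mulVecLin_apply,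
      mulVecLin_apply] at h2
    exact h2
  rcases h with ⟨m, e, he0, he, h⟩ | ⟨m, e, he0, he, h⟩
  · apply he0
    apply hDinj
    apply h
    have h1 := hDT e
    rw [he, map_smul] at h1
    rw [hζinv, mul_comm, mul_smul, h1, smul_smul, inv_mul_cancel₀ hζ0, one_smul]
  · apply he0
    apply hDinj
    apply h
    have h1 := hDT e
    have h2 : D ((g * (U : Mat n)) *ᵥ e) = ζ • ((g * (U : Mat n)) *ᵥ D e) := by
      rw [← mulVec_mulVec, hDg, h1, mulVec_smul, mulVec_mulVec]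
    rw [he, map_smul] at h2
    rw [hζinv, mul_comm, mul_smul, h2, smul_smul, inv_mul_cancel₀ hζ0, one_smul]

lemma irr_aux (hJ : J.det ≠ 0) (hs : ∀ u w, bb J u w = s * bb J w u)
    (hU : (U : Mat n)ᵀ * J * (U : Mat n) = J) (hx : x ≠ 0) (hc : c ≠ 0) {g : Mat n}
    (hg : ∀ y, g *ᵥ y = y + (c * bb J y x) • x)
    (he : ∀ (e : Fin n → ℂ) (m : ℂ), e ≠ 0 → (U : Mat n) *ᵥ e = m • e → bb J x e ≠ 0)
    (h : ∀ d : ℕ, 2 ≤ d →
    (∃ (m : ℂ) (e : Fin n → ℂ), e ≠ 0 ∧ (U : Mat n) *ᵥ e = m • e ∧ ∀ e' : Fin n → ℂ,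
      (U : Mat n) *ᵥ e' = (m * Complex.exp (-(2 * Real.pi * Complex.I / d))) • e' → e' = 0) ∨
    (∃ (m : ℂ) (e : Fin n → ℂ), e ≠ 0 ∧ (g * (U : Mat n)) *ᵥ e = m • e ∧ ∀ e' : Fin n → ℂ,
      (g * (U : Mat n)) *ᵥ e' = (m * Complex.exp (-(2 * Real.pi * Complex.I / d))) • e' → e' = 0))
    {W : Submodule ℂ (Fin n → ℂ)} (hW : Inv J U x c W) : W = ⊥ ∨ W = ⊤ := by
  have hJp : ∀ y : Fin n → ℂ, (∀ k, bb J y (vv U x k) = 0) → y = 0 :=
    fun y hy => perp_zero hU hs he hy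
  have htop : ∀ W : Submodule ℂ (Fin n → ℂ), (∀ k, vv U x k ∈ W) → W = ⊤ :=
    fun W hW => span_top hJ hJp hW
  obtain ⟨a, ha⟩ := Int.subgroup_cyclic (HH hU x c)
  have hmem : ∀ k, k ∈ HH hU x c ↔ ((a.natAbs : ℕ) : ℤ) ∣ k := by
    intro k
    rw [ha, AddSubgroup.mem_closure_singleton, Int.natAbs_dvd]
    constructor
    · rintro ⟨z, rfl⟩
      exact ⟨z, by rw [smul_eq_mul, mul_comm]⟩
    · rintro ⟨z, rfl⟩
      exact ⟨z, by rw [smul_eq_mul, mul_comm]⟩
  have hort : ∀ k l : ℤ, ¬ ((a.natAbs : ℕ) : ℤ) ∣ k - l → bb J (vv U x k) (vv U x l) = 0 := by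
    intro k l hkl
    apply ortho hs hc
    rw [rel_iff hU, hmem]
    exact hkl
  rcases Nat.lt_or_ge a.natAbs 2 with h2 | h2
  · rcases Nat.lt_or_ge a.natAbs 1 with h1 | h1
    · -- all translates are orthogonal
      exfalso
      have h0 : a.natAbs = 0 := by omega
      have hort' : ∀ k l : ℤ, k ≠ l → bb J (vv U x k) (vv U x l) = 0 := by
        intro k l hkl
        apply hort k l
        rw [h0]
        intro hdv
        rw [Nat.cast_zero, zero_dvd_iff] at hdv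
        exact hkl (by omega)
      have hnz : ∀ k : ℤ, bb J (vv U x k) (vv U x k) ≠ 0 := by
        intro k hk
        have h3 : vv U x k = 0 := by
          apply hJp
          intro l
          rcases eq_or_ne k l with rfl | hkl
          · exact hk
          · exact hort' k l hkl
        apply hx
        have h4 := mul_vv (U := U) (x := x) (-k) k
        rw [h3, mulVec_zero, neg_add_cancel, vv_zero] at h4
        exact h4.symm
      have hli : LinearIndependent ℂ (vv U x) := by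
        rw [linearIndependent_iff']
        intro t f hf k hk
        have h3 : bb J (∑ i ∈ t, f i • vv U x i) (vv U x k) = f k * bb J (vv U x k) (vv U x k) := by
          rw [map_sum, LinearMap.sum_apply, Finset.sum_eq_single k]
          · rw [map_smul, LinearMap.smul_apply, smul_eq_mul]
          · intro i _ hik
            rw [map_smul, LinearMap.smul_apply, hort' i k hik, smul_zero]
          · exact fun h => absurd hk h
        rw [hf, map_zero, LinearMap.zero_apply] at h3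
        exact (mul_eq_zero.1 h3.symm).resolve_right (hnz k)
      have := hli.finite
      exact not_finite ℤ
    · -- all indices are equivalent
      have h0 : a.natAbs = 1 := by omega
      have hall : ∀ k : ℤ, Rel J U x c k 0 := by
        intro k
        rw [rel_iff hU, hmem, h0]
        simp
      by_cases hW0 : vv U x 0 ∈ W
      · right
        exact htop W fun k => (hall k W hW).2 hW0
      · left
        rw [Submodule.eq_bot_iff]
        intro y hy
        apply hJp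
        intro k
        rcases inv_or hc hW k with h3 | h3
        · exact absurd ((hall k W hW).1 h3) hW0
        · exact h3 y hy
  · exact (no_period hJp htop hg h2 hort (h _ h2)).elim

end
theorem irr : S_IRR := by
  intro n J T Ti g x c hsym hJ hT hTi hx hc hgd _ he h W hW
  have hTi' : Ti * T = 1 := mul_eq_one_comm.1 hTi
  let U : (Mat n)ˣ := ⟨T, Ti, hTi, hTi'⟩
  have hUT : (U : Mat n) = T := rfl
  have hUTi : ((U⁻¹ : (Mat n)ˣ) : Mat n) = Ti := rfl
  obtain ⟨s, hs⟩ : ∃ s : ℂ, ∀ u w, bb J u w = s * bb J w u := by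
    have h1 : ∀ u w : Fin n → ℂ, u ⬝ᵥ (J *ᵥ w) = w ⬝ᵥ (Jᵀ *ᵥ u) := by
      intro u w
      rw [dotProduct_mulVec, dotProduct_comm, mulVec_transpose]
    rcases hsym with h2 | h2
    · refine ⟨1, fun u w => ?_⟩
      rw [bb_apply, bb_apply, one_mul]
      unfold bl
      rw [h1, h2]
    · refine ⟨-1, fun u w => ?_⟩
      rw [bb_apply, bb_apply]
      unfold bl
      rw [h1, h2, neg_mulVec, dotProduct_neg, neg_one_mul]
  have hg : ∀ y, g *ᵥ y = y + (c * bb J y x) • x := by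
    intro y
    rw [hgd, add_mulVec, one_mulVec, smul_mulVec, bb_apply]
    congr 1
    funext i
    unfold bl
    rw [dotProduct_comm y]
    simp only [Pi.smul_apply, smul_eq_mul, mulVec, dotProduct, vecMulVec_apply]
    rw [Finset.mul_sum, Finset.mul_sum, Finset.sum_mul]
    apply Finset.sum_congr rfl
    intro j _
    ring
  have hU : (U : Mat n)ᵀ * J * (U : Mat n) = J := hT
  have key : ∀ (k : ℤ) (y : Fin n → ℂ), y ∈ W →
      (((U ^ k : (Mat n)ˣ) : Mat n) * g * ((U ^ (-k) : (Mat n)ˣ) : Mat n)) *ᵥ y ∈ W := by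
    intro k y hy
    rcases Int.eq_nat_or_neg k with ⟨j, rfl | rfl⟩
    · have h1 := (hW j).1 y hy
      rw [_root_.zpow_neg, zpow_natCast, ← inv_pow, Units.val_pow_eq_pow_val, Units.val_pow_eq_pow_val]
      exact h1
    · have h1 := (hW j).2 y hy
      rw [neg_neg, _root_.zpow_neg, zpow_natCast, ← inv_pow, Units.val_pow_eq_pow_val,
        Units.val_pow_eq_pow_val]
      exact h1
  refine irr_aux (U := U) (s := s) hJ hs hU hx hc hg ?_ h ?_
  · intro e m he0 hem
    rw [bb_apply]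
    exact he e m he0 hem
  · intro k y hy
    have h1 := key k y hy
    rw [← mulVec_mulVec, ← mulVec_mulVec, hg, mulVec_add, mulVec_smul, inv_mulVec_cancel,
      ← iso_zpow hU k, inv_mulVec_cancel] at h1
    exact h1

end Pool.Agent.N34.HG.Irr
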